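import Pool.Agent.Galois60.Main

set_option autoImplicit false
set_option linter.unusedSectionVars false

namespace Pool.Agent.Results.MP_1328b3_al.Threshold

open Equiv Finset Pool.Agent.Galois60

/-- The Galois closure of `G ≤ S_n` over `k` colours: the set of all `σ` in `S_n` such that every map
`f : k^n → k` that is invariant under all elements of `G` is invariant under `σ`.
Here `S_n = Perm (Fin n)` acts on tuples `a : Fin n → Fin k` by `a ↦ a ∘ σ`. -/
def galoisClosure {n : ℕ} (k : ℕ) (G : Subgroup (Perm (Fin n))) : Set (Perm (Fin n)) :=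
  {σ | ∀ f : (Fin n → Fin k) → Fin k,
    (∀ τ ∈ G, ∀ a : Fin n → Fin k, f a = f (a ∘ τ)) → ∀ a : Fin n → Fin k, f a = f (a ∘ σ)}

/-- `G` is Galois closed over `k` colours: its Galois closure is `G` itself. -/
def IsGaloisClosed {n : ℕ} (k : ℕ) (G : Subgroup (Perm (Fin n))) : Prop :=
  galoisClosure k G = (G : Set (Perm (Fin n)))

/-- For `B ⊆ {1..n}` with complement `D`, and groups `M ≤ S_B`, `L ≤ S_D`: the intransitive product `M × L ≤ S_n`,
whose elements act on `B` as an element of `M` and, independently, on `D` as an element of `L`. -/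
def prodOn {n : ℕ} (B : Finset (Fin n)) (M : Subgroup (Perm {x : Fin n // x ∈ B}))
    (L : Subgroup (Perm {x : Fin n // x ∉ B})) : Subgroup (Perm (Fin n)) :=
  (M.prod L).map (Perm.subtypeCongrHom (fun x : Fin n => x ∈ B))

/-- `G <_sd S_B × L`: `G` is a proper subgroup of `S_B × L` whose projections onto `S_B` and onto `L`
are both surjective. -/
def IsProperSubdirect {n : ℕ} (B : Finset (Fin n)) (L : Subgroup (Perm {x : Fin n // x ∉ B}))
    (G : Subgroup (Perm (Fin n))) : Prop :=
  G < prodOn B ⊤ L ∧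
    (∀ β : Perm {x : Fin n // x ∈ B}, ∃ l : Perm {x : Fin n // x ∉ B},
      Perm.subtypeCongrHom (fun x : Fin n => x ∈ B) (β, l) ∈ G) ∧
    (∀ l ∈ L, ∃ β : Perm {x : Fin n // x ∈ B},
      Perm.subtypeCongrHom (fun x : Fin n => x ∈ B) (β, l) ∈ G)

/-- The statement `T(n, d)` with `k = n - d`: a subgroup `G` of `S_n` is not Galois closed over `k` colours if and
only if `G = A_B × L` or `G <_sd S_B × L` for some `B` whose complement `D` has fewer than `d` points and some
`L ≤ S_D`. -/
def T (n d : ℕ) : Prop :=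
  ∀ G : Subgroup (Perm (Fin n)), ¬ IsGaloisClosed (n - d) G ↔
    ∃ (B : Finset (Fin n)) (L : Subgroup (Perm {x : Fin n // x ∉ B})), Bᶜ.card < d ∧
      (G = prodOn B (alternatingGroup {x : Fin n // x ∈ B}) L ∨ IsProperSubdirect B L G)

section closure

variable {n k : ℕ} {G : Subgroup (Perm (Fin n))}

lemma mem_galoisClosure_iff (hk : 2 ≤ k) {σ : Perm (Fin n)} :
    σ ∈ galoisClosure k G ↔ ∀ a : Fin n → Fin k, ∃ g ∈ G, a ∘ σ = a ∘ g := by
  classical
  constructor
  · intro h a
    let z0 : Fin k := ⟨0, by omega⟩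
    let z1 : Fin k := ⟨1, by omega⟩
    have h01 : z0 ≠ z1 := by simp [z0, z1]
    let f : (Fin n → Fin k) → Fin k := fun b => if ∃ g ∈ G, b = a ∘ g then z1 else z0
    have hf : ∀ τ ∈ G, ∀ b : Fin n → Fin k, f b = f (b ∘ τ) := by
      intro τ hτ b
      have hiff : (∃ g ∈ G, b = a ∘ g) ↔ (∃ g ∈ G, b ∘ τ = a ∘ g) := by
        constructor
        · rintro ⟨g, hg, rfl⟩
          exact ⟨g * τ, G.mul_mem hg hτ, rfl⟩
        · rintro ⟨g, hg, hb⟩
          refine ⟨g * τ⁻¹, G.mul_mem hg (G.inv_mem hτ), ?_⟩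
          ext x
          have := congrFun hb (τ⁻¹ x)
          simp only [Function.comp_apply, app_inv] at this
          rw [this]
          rfl
      simp only [f, hiff]
    have h1 := h f hf a
    have h2 : f a = z1 := by
      simp only [f]
      rw [if_pos]
      exact ⟨1, G.one_mem, rfl⟩
    rw [h2] at h1
    by_contra hcon
    have h3 : f (a ∘ σ) = z0 := by
      simp only [f]
      rw [if_neg hcon]
    exact h01 (h3.symm.trans h1.symm)
  · intro h f hf a
    obtain ⟨g, hg, hag⟩ := h a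
    rw [hag]
    exact hf g hg a

/-- the Galois closure as a subgroup -/
def clo {n : ℕ} (k : ℕ) (G : Subgroup (Perm (Fin n))) : Subgroup (Perm (Fin n)) where
  carrier := galoisClosure k G
  one_mem' := fun f _ a => rfl
  mul_mem' := by
    intro σ τ hσ hτ f hf a
    rw [hσ f hf a, hτ f hf (a ∘ σ)]
    rfl
  inv_mem' := by
    intro σ hσ f hf a
    rw [hσ f hf (a ∘ (σ⁻¹ : Perm (Fin n)))]
    congr 1
    ext x
    simp [Function.comp_apply]

lemma le_clo (k : ℕ) (G : Subgroup (Perm (Fin n))) : G ≤ clo k G := by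
  intro g hg f hf a
  exact hf g hg a

lemma closed_iff : IsGaloisClosed k G ↔ clo k G ≤ G := by
  constructor
  · intro h σ hσ
    have : σ ∈ galoisClosure k G := hσ
    rw [h] at this
    exact this
  · intro h
    apply Set.Subset.antisymm
    · exact h
    · exact le_clo k G

lemma clo_good (hk : 2 ≤ k) (c : Fin n → Fin n) (hc : (univ.image c).card ≤ k) :
    Good G (clo k G) c := by
  intro h hh
  have hc' : Fintype.card (univ.image c) ≤ Fintype.card (Fin k) := by
    rw [Fintype.card_coe, Fintype.card_fin]; exact hc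
  obtain ⟨e⟩ := Function.Embedding.nonempty_of_card_le hc'
  let a : Fin n → Fin k := fun x => e ⟨c x, mem_image_of_mem _ (mem_univ _)⟩
  obtain ⟨g, hg, hag⟩ := (mem_galoisClosure_iff hk).1 hh a
  refine ⟨g, hg, ?_⟩
  ext x
  have := congrFun hag x
  simp only [Function.comp_apply, a] at this
  have h2 := e.injective this
  simp only [Subtype.mk.injEq] at h2
  simp only [Function.comp_apply]
  exact congrArg _ h2

end closure

section products

variable {n : ℕ} (B : Finset (Fin n))

/-- abbreviation for the gluing homomorphism -/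
abbrev φ : Perm {x : Fin n // x ∈ B} × Perm {x : Fin n // x ∉ B} →* Perm (Fin n) :=
  Perm.subtypeCongrHom (fun x : Fin n => x ∈ B)

lemma φ_in (β : Perm {x : Fin n // x ∈ B}) (l : Perm {x : Fin n // x ∉ B}) {x : Fin n} (hx : x ∈ B) :
    φ B (β, l) x = β ⟨x, hx⟩ :=
  Perm.subtypeCongr.left_apply β l hx

lemma φ_out (β : Perm {x : Fin n // x ∈ B}) (l : Perm {x : Fin n // x ∉ B}) {x : Fin n} (hx : x ∉ B) :
    φ B (β, l) x = l ⟨x, hx⟩ :=
  Perm.subtypeCongr.right_apply β l hx

lemma exists_φ {h : Perm (Fin n)} (hh : ∀ b ∈ B, h b ∈ B) : ∃ β l, φ B (β, l) = h := by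
  have h1 : ∀ x, h x ∈ B ↔ x ∈ B := by
    intro x
    constructor
    · intro hx
      by_contra hxB
      have h2 : B.image h ⊆ B := by
        intro y hy
        rw [mem_image] at hy
        obtain ⟨b, hb, rfl⟩ := hy
        exact hh b hb
      have h3 : B.image h = B := by
        apply eq_of_subset_of_card_le h2
        rw [card_image_of_injective _ h.injective]
      rw [← h3, mem_image] at hx
      obtain ⟨b, hb, hbx⟩ := hx
      exact hxB (h.injective hbx ▸ hb)
    · exact hh x
  refine ⟨h.subtypePerm (p := fun x => x ∈ B) h1, h.subtypePerm (p := fun x => x ∉ B) (fun x => not_congr (h1 x)), ?_⟩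
  ext x
  by_cases hx : x ∈ B
  · rw [φ_in B _ _ hx]; rfl
  · rw [φ_out B _ _ hx]; rfl

lemma mem_prodOn {M : Subgroup (Perm {x : Fin n // x ∈ B})} {L : Subgroup (Perm {x : Fin n // x ∉ B})}
    {g : Perm (Fin n)} : g ∈ prodOn B M L ↔ ∃ β ∈ M, ∃ l ∈ L, φ B (β, l) = g := by
  unfold prodOn
  rw [Subgroup.mem_map]
  constructor
  · rintro ⟨⟨β, l⟩, h, rfl⟩
    rw [Subgroup.mem_prod] at h
    exact ⟨β, h.1, l, h.2, rfl⟩
  · rintro ⟨β, hβ, l, hl, rfl⟩
    exact ⟨(β, l), Subgroup.mem_prod.2 ⟨hβ, hl⟩, rfl⟩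

lemma φ_mem_prodOn {M : Subgroup (Perm {x : Fin n // x ∈ B})} {L : Subgroup (Perm {x : Fin n // x ∉ B})}
    {β : Perm {x : Fin n // x ∈ B}} {l : Perm {x : Fin n // x ∉ B}} :
    φ B (β, l) ∈ prodOn B M L ↔ β ∈ M ∧ l ∈ L := by
  rw [mem_prodOn]
  constructor
  · rintro ⟨β', hβ', l', hl', h⟩
    have := Perm.subtypeCongrHom_injective _ h
    rw [Prod.mk.injEq] at this
    rw [← this.1, ← this.2]
    exact ⟨hβ', hl'⟩
  · rintro ⟨h1, h2⟩
    exact ⟨β, h1, l, h2, rfl⟩

lemma φ_mul (β β' : Perm {x : Fin n // x ∈ B}) (l l' : Perm {x : Fin n // x ∉ B}) :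
    φ B (β, l) * φ B (β', l') = φ B (β * β', l * l') := by
  rw [← map_mul]; rfl

lemma φ_inv (β : Perm {x : Fin n // x ∈ B}) (l : Perm {x : Fin n // x ∉ B}) :
    (φ B (β, l))⁻¹ = φ B (β⁻¹, l⁻¹) := by
  rw [← map_inv]; rfl

lemma φ_tri (a b c : {x : Fin n // x ∈ B}) :
    φ B (tri a b c, 1) = tri (a : Fin n) b c := by
  have hsw : ∀ u v : {x : Fin n // x ∈ B}, φ B (swap u v, 1) = swap (u : Fin n) v := by
    intro u v
    ext x
    by_cases hx : x ∈ B
    · rw [φ_in B _ _ hx]
      by_cases h1 : x = u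
      · subst h1
        have : (⟨(u : Fin n), hx⟩ : {x : Fin n // x ∈ B}) = u := rfl
        rw [this, swap_apply_left, swap_apply_left]
      by_cases h2 : x = v
      · subst h2
        have : (⟨(v : Fin n), hx⟩ : {x : Fin n // x ∈ B}) = v := rfl
        rw [this, swap_apply_right, swap_apply_right]
      rw [swap_apply_of_ne_of_ne h1 h2, swap_apply_of_ne_of_ne]
      · intro h; exact h1 (congrArg Subtype.val h)
      · intro h; exact h2 (congrArg Subtype.val h)
    · rw [φ_out B _ _ hx, swap_apply_of_ne_of_ne]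
      · rfl
      · rintro rfl; exact hx u.2
      · rintro rfl; exact hx v.2
  unfold tri
  rw [← hsw, ← hsw, φ_mul, one_mul]

/-- the group of `β` with `β × 1 ∈ G` -/
def inB (G : Subgroup (Perm (Fin n))) : Subgroup (Perm {x : Fin n // x ∈ B}) :=
  (G.comap (φ B)).comap (MonoidHom.inl _ _)

lemma mem_inB {G : Subgroup (Perm (Fin n))} {β : Perm {x : Fin n // x ∈ B}} :
    β ∈ inB B G ↔ φ B (β, 1) ∈ G := Iff.rfl

lemma alt_le_inB {G : Subgroup (Perm (Fin n))}
    (h : ∀ a ∈ B, ∀ b ∈ B, ∀ c ∈ B, a ≠ b → b ≠ c → a ≠ c → tri a b c ∈ G) :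
    alternatingGroup {x : Fin n // x ∈ B} ≤ inB B G := by
  rw [← Equiv.Perm.closure_three_cycles_eq_alternating, Subgroup.closure_le]
  intro σ hσ
  have hσ' : σ.IsThreeCycle := hσ
  obtain ⟨a, ha⟩ : σ.support.Nonempty := by
    rw [← card_pos, hσ'.card_support]; norm_num
  have h1 := (hσ'.eq_swap_mul_swap_iff_mem_support).2 ha
  have h2 := (hσ'.nodup_iff_mem_support).2 ha
  simp only [List.nodup_cons, List.mem_cons, List.not_mem_nil, or_false, not_or, not_false_eq_true,
    List.nodup_nil, and_true] at h2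
  have h3 : σ = tri a (σ a) (σ (σ a)) := h1
  change φ B (σ, 1) ∈ G
  rw [h3, φ_tri]
  apply h
  · exact a.2
  · exact (σ a).2
  · exact (σ (σ a)).2
  · exact fun e => h2.1.1 (Subtype.ext e)
  · exact fun e => h2.2 (Subtype.ext e)
  · exact fun e => h2.1.2 (Subtype.ext e)

/-- two odd permutations differ by an even one -/
lemma odd_mul_odd {β β' : Perm {x : Fin n // x ∈ B}} (h : β ∉ alternatingGroup {x : Fin n // x ∈ B})
    (h' : β' ∉ alternatingGroup {x : Fin n // x ∈ B}) :
    β * β' ∈ alternatingGroup {x : Fin n // x ∈ B} := by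
  rw [Equiv.Perm.mem_alternatingGroup] at *
  rw [Equiv.Perm.sign_mul]
  rcases Int.units_eq_one_or (Equiv.Perm.sign β) with e | e
  · exact absurd e h
  rcases Int.units_eq_one_or (Equiv.Perm.sign β') with e' | e'
  · exact absurd e' h'
  rw [e, e']; decide

end products

section forward

variable {n d : ℕ}

lemma form_of_not_closed (hd : 1 ≤ d) (hn : 2 * d < n) (G : Subgroup (Perm (Fin n)))
    (h : ¬ IsGaloisClosed (n - d) G) :
    ∃ (B : Finset (Fin n)) (L : Subgroup (Perm {x : Fin n // x ∉ B})), Bᶜ.card < d ∧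
      (G = prodOn B (alternatingGroup {x : Fin n // x ∈ B}) L ∨ IsProperSubdirect B L G) := by
  classical
  have hne : ¬ clo (n - d) G ≤ G := fun h' => h (closed_iff.2 h')
  have hgood : ∀ c : Fin n → Fin n, (univ.image c).card ≤ Fintype.card (Fin n) - d →
      Good G (clo (n - d) G) c := by
    intro c hc
    apply clo_good (by omega)
    simpa using hc
  obtain ⟨B, hBd, hHB, htri⟩ := structure_thm (le_clo (n - d) G) hne hd (by simpa using hn) hgood
  have halt := alt_le_inB B htri
  let L : Subgroup (Perm {x : Fin n // x ∉ B}) := (G.comap (φ B)).map (MonoidHom.snd _ _)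
  have hL : ∀ l, l ∈ L ↔ ∃ β, φ B (β, l) ∈ G := by
    intro l
    constructor
    · intro hl
      rw [Subgroup.mem_map] at hl
      obtain ⟨⟨β, l'⟩, h1, h2⟩ := hl
      simp only [MonoidHom.coe_snd] at h2
      subst h2
      exact ⟨β, h1⟩
    · rintro ⟨β, hβ⟩
      rw [Subgroup.mem_map]
      exact ⟨(β, l), hβ, rfl⟩
  have hGφ : ∀ g ∈ G, ∃ β l, φ B (β, l) = g := fun g hg =>
    exists_φ B (hHB g (le_clo _ _ hg))
  refine ⟨B, L, hBd, ?_⟩
  by_cases hodd : ∃ β l, φ B (β, l) ∈ G ∧ β ∉ alternatingGroup {x : Fin n // x ∈ B}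
  · right
    obtain ⟨β0, l0, hβ0, hodd⟩ := hodd
    refine ⟨?_, ?_, ?_⟩
    · refine lt_of_le_of_ne ?_ ?_
      · intro g hg
        obtain ⟨β, l, rfl⟩ := hGφ g hg
        rw [φ_mem_prodOn]
        exact ⟨Subgroup.mem_top _, (hL l).2 ⟨β, hg⟩⟩
      · intro heq
        apply hne
        intro σ hσ
        obtain ⟨β, l, rfl⟩ := exists_φ B (hHB σ hσ)
        rw [heq, φ_mem_prodOn]
        refine ⟨Subgroup.mem_top _, ?_⟩
        -- colour the complement injectively
        have hBne : B.Nonempty := by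
          rw [← card_pos]
          rw [card_compl, Fintype.card_fin] at hBd
          omega
        obtain ⟨b0, hb0⟩ := hBne
        let c : Fin n → Fin n := fun x => if x ∈ B then b0 else x
        have hc : (univ.image c).card ≤ n - d := by
          have : univ.image c ⊆ insert b0 Bᶜ := by
            intro y hy
            rw [mem_image] at hy
            obtain ⟨x, -, rfl⟩ := hy
            simp only [c]
            split_ifs with hx
            · exact mem_insert_self _ _
            · exact mem_insert_of_mem (mem_compl.2 hx)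
          have h2 := card_le_card this
          have h3 := card_insert_le b0 Bᶜ
          omega
        obtain ⟨g, hg, hcg⟩ := clo_good (by omega) c hc _ hσ
        obtain ⟨β', l', rfl⟩ := hGφ g hg
        have : l = l' := by
          ext x
          have h1 := congrFun hcg (x : Fin n)
          simp only [Function.comp_apply] at h1
          rw [φ_out B β l x.2, φ_out B β' l' x.2] at h1
          simp only [c, (l ⟨(x : Fin n), x.2⟩).2, (l' ⟨(x : Fin n), x.2⟩).2, if_false] at h1
          exact congrArg _ h1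
        rw [hL, this]
        exact ⟨β', hg⟩
    · intro β
      by_cases hβ : β ∈ alternatingGroup {x : Fin n // x ∈ B}
      · exact ⟨1, halt hβ⟩
      · refine ⟨l0⁻¹, ?_⟩
        have h1 : β * β0 ∈ alternatingGroup {x : Fin n // x ∈ B} := odd_mul_odd B hβ hodd
        have h2 := halt h1
        rw [mem_inB] at h2
        have h3 := G.mul_mem h2 (G.inv_mem hβ0)
        rw [φ_inv, φ_mul, one_mul, mul_assoc, mul_inv_cancel, mul_one] at h3
        exact h3
    · intro l hl
      exact (hL l).1 hl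
  · left
    push Not at hodd
    ext g
    constructor
    · intro hg
      obtain ⟨β, l, rfl⟩ := hGφ g hg
      rw [φ_mem_prodOn]
      exact ⟨hodd β l hg, (hL l).2 ⟨β, hg⟩⟩
    · intro hg
      rw [mem_prodOn] at hg
      obtain ⟨β, hβ, l, hl, rfl⟩ := hg
      obtain ⟨β', hβ'⟩ := (hL l).1 hl
      have h1 : β * β'⁻¹ ∈ alternatingGroup {x : Fin n // x ∈ B} :=
        Subgroup.mul_mem _ hβ (Subgroup.inv_mem _ (hodd β' l hβ'))
      have h2 := halt h1
      rw [mem_inB] at h2
      have h3 := G.mul_mem h2 hβ'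
      rw [φ_mul, one_mul, mul_assoc, inv_mul_cancel, mul_one] at h3
      exact h3

end forward

section backward

variable {n d : ℕ} (B : Finset (Fin n))

/-- if `A_B × 1 ≤ G` and `G` is closed over fewer than `|B|` colours then `S_B × 1 ≤ G` -/
lemma full_of_closed {k : ℕ} (hk : 2 ≤ k) (hB : k < B.card) {G : Subgroup (Perm (Fin n))}
    (halt : alternatingGroup {x : Fin n // x ∈ B} ≤ inB B G) (hcl : IsGaloisClosed k G)
    (β : Perm {x : Fin n // x ∈ B}) : φ B (β, 1) ∈ G := by
  by_cases hβ : β ∈ alternatingGroup {x : Fin n // x ∈ B}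
  · exact halt hβ
  rw [closed_iff] at hcl
  apply hcl
  change _ ∈ galoisClosure k G
  rw [mem_galoisClosure_iff hk]
  intro a
  obtain ⟨x, hx, y, hy, hxy, haxy⟩ : ∃ x ∈ B, ∃ y ∈ B, x ≠ y ∧ a x = a y := by
    have := exists_ne_map_eq_of_card_lt_of_maps_to (s := B) (t := (univ : Finset (Fin k)))
      (by simpa using hB) (f := a) (fun _ _ => mem_univ _)
    obtain ⟨x, hx, y, hy, hxy, h⟩ := this
    exact ⟨x, hx, y, hy, hxy, h⟩
  have hodd : swap (⟨x, hx⟩ : {x : Fin n // x ∈ B}) ⟨y, hy⟩ ∉ alternatingGroup {x : Fin n // x ∈ B} := by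
    rw [Equiv.Perm.mem_alternatingGroup, Equiv.Perm.sign_swap]
    · decide
    · intro h; exact hxy (congrArg Subtype.val h)
  have h1 := halt (odd_mul_odd B hodd hβ)
  rw [mem_inB] at h1
  refine ⟨_, h1, ?_⟩
  ext z
  simp only [Function.comp_apply]
  by_cases hz : z ∈ B
  · rw [φ_in B _ _ hz, φ_in B _ _ hz, Perm.mul_apply]
    by_cases e1 : β ⟨z, hz⟩ = ⟨x, hx⟩
    · rw [e1, swap_apply_left]; exact congrArg _ haxy
    by_cases e2 : β ⟨z, hz⟩ = ⟨y, hy⟩
    · rw [e2, swap_apply_right]; exact congrArg _ haxy.symm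
    rw [swap_apply_of_ne_of_ne e1 e2]
  · rw [φ_out B _ _ hz, φ_out B _ _ hz]

lemma not_closed_of_form (hd : 1 ≤ d) (hn : 2 * d < n) (G : Subgroup (Perm (Fin n)))
    (L : Subgroup (Perm {x : Fin n // x ∉ B})) (hB : Bᶜ.card < d)
    (hG : G = prodOn B (alternatingGroup {x : Fin n // x ∈ B}) L ∨ IsProperSubdirect B L G) :
    ¬ IsGaloisClosed (n - d) G := by
  classical
  intro hcl
  have hBcard : n - d < B.card := by
    rw [card_compl, Fintype.card_fin] at hB
    omega
  have hk : 2 ≤ n - d := by omega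
  rcases hG with hG | ⟨hlt, hsurjB, hsurjL⟩
  · have halt : alternatingGroup {x : Fin n // x ∈ B} ≤ inB B G := by
      intro β hβ
      rw [mem_inB, hG, φ_mem_prodOn]
      exact ⟨hβ, L.one_mem⟩
    obtain ⟨x, hx, y, hy, hxy⟩ : ∃ x ∈ B, ∃ y ∈ B, x ≠ y := by
      have : 1 < B.card := by omega
      exact one_lt_card.1 this
    have h1 := full_of_closed B hk hBcard halt hcl (swap (⟨x, hx⟩ : {x : Fin n // x ∈ B}) ⟨y, hy⟩)
    rw [hG, φ_mem_prodOn, Equiv.Perm.mem_alternatingGroup, Equiv.Perm.sign_swap] at h1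
    · exact absurd h1.1 (by decide)
    · intro h; exact hxy (congrArg Subtype.val h)
  · -- subdirect case
    have hnorm : ∀ ν : Perm {x : Fin n // x ∈ B}, φ B (ν, 1) ∈ G → ∀ β : Perm {x : Fin n // x ∈ B},
        φ B (β * ν * β⁻¹, 1) ∈ G := by
      intro ν hν β
      obtain ⟨l, hl⟩ := hsurjB β
      have h1 := G.mul_mem (G.mul_mem hl hν) (G.inv_mem hl)
      rw [φ_inv, φ_mul, φ_mul, mul_one, mul_inv_cancel] at h1
      exact h1
    choose lam hlam using hsurjB
    have hcardB : Fintype.card {x : Fin n // x ∈ B} = B.card := Fintype.card_coe B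
    have hcardD : Fintype.card {x : Fin n // x ∉ B} = Bᶜ.card := by
      rw [card_compl, Fintype.card_subtype_compl]; simp
    obtain ⟨b0, hb0⟩ : B.Nonempty := by rw [← card_pos]; omega
    obtain ⟨m, hm⟩ : ∃ m, B.card = m + 1 := ⟨B.card - 1, by omega⟩
    have hmD : Bᶜ.card + 1 ≤ m ∧ 2 ≤ m := by
      rw [card_compl, Fintype.card_fin] at *
      omega
    -- pigeonhole
    obtain ⟨β, β', hββ', heq⟩ : ∃ β β' : Perm {x : Fin n // x ∈ B}, β ≠ β' ∧
        (lam β, β ⟨b0, hb0⟩) = (lam β', β' ⟨b0, hb0⟩) := by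
      apply Fintype.exists_ne_map_eq_of_card_lt
        (fun β : Perm {x : Fin n // x ∈ B} => (lam β, β ⟨b0, hb0⟩))
      rw [Fintype.card_prod, Fintype.card_perm, Fintype.card_perm, hcardB, hcardD, hm,
        Nat.factorial_succ, mul_comm]
      apply Nat.mul_lt_mul_of_pos_left _ (Nat.succ_pos m)
      rcases Nat.eq_zero_or_pos Bᶜ.card with h0 | h0
      · rw [h0, Nat.factorial_zero]
        calc 1 < 2 := by norm_num
          _ = Nat.factorial 2 := rfl
          _ ≤ Nat.factorial m := Nat.factorial_le hmD.2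
      · exact (Nat.factorial_lt h0).2 (by omega)
    rw [Prod.mk.injEq] at heq
    set ν := β⁻¹ * β' with hν
    have hνG : φ B (ν, 1) ∈ G := by
      have h1 := G.mul_mem (G.inv_mem (hlam β)) (hlam β')
      change (φ B (β, lam β))⁻¹ * φ B (β', lam β') ∈ G at h1
      rw [φ_inv, φ_mul, heq.1, inv_mul_cancel] at h1
      exact h1
    have hν0 : ν ⟨b0, hb0⟩ = ⟨b0, hb0⟩ := by
      rw [hν, Perm.mul_apply, ← heq.2, inv_app]
    obtain ⟨i, hi⟩ : ∃ i, ν i ≠ i := by
      by_contra hcon
      push Not at hcon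
      apply hββ'
      have : ν = 1 := Equiv.ext hcon
      rw [hν, inv_mul_eq_one] at this
      exact this
    have hi0 : i ≠ ⟨b0, hb0⟩ := fun h => hi (by rw [h]; exact hν0)
    have hj0 : ν i ≠ ⟨b0, hb0⟩ := fun h => hi0 (ν.injective (h.trans hν0.symm))
    -- three-cycle
    have h3 : φ B (swap ⟨b0, hb0⟩ (ν i) * swap ⟨b0, hb0⟩ i, 1) ∈ G := by
      have h1 := hnorm ν⁻¹ (by
        have := G.inv_mem hνG
        rwa [φ_inv, inv_one] at this) (swap ⟨b0, hb0⟩ i)
      have h2 := G.mul_mem hνG h1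
      rw [φ_mul, one_mul] at h2
      have e : ν * (swap ⟨b0, hb0⟩ i * ν⁻¹ * (swap ⟨b0, hb0⟩ i)⁻¹)
          = swap ⟨b0, hb0⟩ (ν i) * swap ⟨b0, hb0⟩ i := by
        have := Equiv.swap_apply_apply ν ⟨b0, hb0⟩ i
        rw [hν0] at this
        rw [this, swap_inv]
        group
      rw [e] at h2
      exact h2
    have h3' : (swap ⟨b0, hb0⟩ (ν i) * swap ⟨b0, hb0⟩ i).IsThreeCycle :=
      Equiv.Perm.isThreeCycle_swap_mul_swap_same hj0.symm hi0.symm hi
    have halt : alternatingGroup {x : Fin n // x ∈ B} ≤ inB B G := by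
      rw [← Equiv.Perm.closure_three_cycles_eq_alternating, Subgroup.closure_le]
      intro σ hσ
      have hσ' : σ.IsThreeCycle := hσ
      obtain ⟨τ, hτ⟩ := isConj_iff.1 (Equiv.Perm.isConj_iff_cycleType_eq.2 (h3'.trans hσ'.symm))
      change φ B (σ, 1) ∈ G
      rw [← hτ]
      exact hnorm _ h3 τ
    -- conclude
    have hfull := full_of_closed B hk hBcard halt hcl
    apply hlt.ne
    apply le_antisymm hlt.le
    intro g hg
    rw [mem_prodOn] at hg
    obtain ⟨β1, -, l, hl, rfl⟩ := hg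
    obtain ⟨β2, hβ2⟩ := hsurjL l hl
    have h1 := G.mul_mem (hfull (β1 * β2⁻¹)) hβ2
    change φ B (β1 * β2⁻¹, 1) * φ B (β2, l) ∈ G at h1
    rw [φ_mul, one_mul, mul_assoc, inv_mul_cancel, mul_one] at h1
    exact h1

end backward

theorem T_of_large {n d : ℕ} (hd : 1 ≤ d) (hn : 2 * d < n) : T n d := by
  intro G
  constructor
  · exact form_of_not_closed hd hn G
  · rintro ⟨B, L, hB, hG⟩
    exact not_closed_of_form B hd hn G L hB hG

section lower

variable {d : ℕ}

lemma sgn_sq (d : ℕ) : ((-1 : ℤˣ) ^ (d + 1)) * ((-1 : ℤˣ) ^ (d + 1)) = 1 := by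
  rw [← mul_pow]; simp

/-- the index-two subgroup of `S_d wr S_2` used for the lower bound -/
def G3 (d : ℕ) : Subgroup (Perm (Fin (2 * d))) where
  carrier := {σ | ((∀ x, ((σ x).val < d ↔ x.val < d)) ∧ Equiv.Perm.sign σ = 1) ∨
    ((∀ x, ((σ x).val < d ↔ ¬ x.val < d)) ∧ Equiv.Perm.sign σ = (-1) ^ (d + 1))}
  one_mem' := Or.inl ⟨fun x => Iff.rfl, by simp⟩
  mul_mem' := by
    rintro σ τ (⟨h1, h2⟩ | ⟨h1, h2⟩) (⟨h3, h4⟩ | ⟨h3, h4⟩)
    · refine Or.inl ⟨fun x => ?_, by rw [Equiv.Perm.sign_mul, h2, h4, one_mul]⟩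
      rw [Perm.mul_apply, h1, h3]
    · refine Or.inr ⟨fun x => ?_, by rw [Equiv.Perm.sign_mul, h2, h4, one_mul]⟩
      rw [Perm.mul_apply, h1, h3]
    · refine Or.inr ⟨fun x => ?_, by rw [Equiv.Perm.sign_mul, h2, h4, mul_one]⟩
      rw [Perm.mul_apply, h1, h3]
    · refine Or.inl ⟨fun x => ?_, by rw [Equiv.Perm.sign_mul, h2, h4, sgn_sq]⟩
      rw [Perm.mul_apply, h1, h3, not_not]
  inv_mem' := by
    rintro σ (⟨h1, h2⟩ | ⟨h1, h2⟩)
    · refine Or.inl ⟨fun x => ?_, by rw [Equiv.Perm.sign_inv, h2]⟩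
      rw [← h1 (σ⁻¹ x), app_inv]
    · refine Or.inr ⟨fun x => ?_, by rw [Equiv.Perm.sign_inv, h2]⟩
      have := h1 (σ⁻¹ x)
      rw [app_inv] at this
      rw [this, not_not]

lemma mem_G3 {σ : Perm (Fin (2 * d))} : σ ∈ G3 d ↔
    ((∀ x, ((σ x).val < d ↔ x.val < d)) ∧ Equiv.Perm.sign σ = 1) ∨
    ((∀ x, ((σ x).val < d ↔ ¬ x.val < d)) ∧ Equiv.Perm.sign σ = (-1) ^ (d + 1)) := Iff.rfl

/-- sign of a fixed point free involution of `2 d` points -/
lemma sign_involution {τ : Perm (Fin (2 * d))} (hd : 1 ≤ d) (h2 : ∀ x, τ (τ x) = x) (hf : ∀ x, τ x ≠ x) :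
    Equiv.Perm.sign τ = (-1) ^ d := by
  have hord : orderOf τ = 2 := by
    apply orderOf_eq_prime
    · ext x; rw [pow_two, Perm.mul_apply, h2]; rfl
    · intro h
      have := hf ⟨0, by omega⟩
      rw [h] at this
      exact this rfl
  have hp : (orderOf τ).Prime := by rw [hord]; exact Nat.prime_two
  obtain ⟨m, hm⟩ := Equiv.Perm.cycleType_prime_order hp
  rw [hord] at hm
  have hsupp : τ.support = univ := by
    ext x; simp [hf x]
  have hsum := Equiv.Perm.sum_cycleType τ
  rw [hsupp, card_univ, Fintype.card_fin, hm, Multiset.sum_replicate, smul_eq_mul] at hsum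
  have hmd : m + 1 = d := by omega
  rw [Equiv.Perm.sign_of_cycleType, hm, Multiset.sum_replicate, Multiset.card_replicate, smul_eq_mul, hmd,
    pow_add, mul_comm d 2, pow_mul]
  simp

lemma card_block (d : ℕ) : (univ.filter (fun x : Fin (2 * d) => x.val < d)).card = d ∧
    (univ.filter (fun x : Fin (2 * d) => ¬ x.val < d)).card = d := by
  have h1 : (univ.filter (fun x : Fin (2 * d) => x.val < d)).card = d := by
    have : (univ.filter (fun x : Fin (2 * d) => x.val < d)) =
        (univ : Finset (Fin d)).map (Fin.castLEEmb (by omega : d ≤ 2 * d)) := by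
      ext x
      simp only [mem_filter, mem_univ, true_and, mem_map]
      constructor
      · intro hx
        exact ⟨⟨x.val, hx⟩, by ext; rfl⟩
      · rintro ⟨y, rfl⟩
        exact y.2
    rw [this, card_map, card_univ, Fintype.card_fin]
  refine ⟨h1, ?_⟩
  have h2 := card_filter_add_card_filter_not (s := (univ : Finset (Fin (2 * d)))) (fun x => x.val < d)
  rw [h1, card_univ, Fintype.card_fin] at h2
  omega

lemma G3_not_closed (hd : 2 ≤ d) : ¬ IsGaloisClosed (2 * d - d) (G3 d) := by
  classical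
  intro hcl
  rw [closed_iff] at hcl
  let x0 : Fin (2 * d) := ⟨0, by omega⟩
  let x1 : Fin (2 * d) := ⟨1, by omega⟩
  have h01 : x0 ≠ x1 := by simp [x0, x1]
  have hsw : ∀ x y : Fin (2 * d), (x.val < d ↔ y.val < d) → ∀ z, ((swap x y z).val < d ↔ z.val < d) := by
    intro x y hxy z
    by_cases h1 : z = x
    · subst h1; rw [swap_apply_left]; exact hxy.symm
    by_cases h2 : z = y
    · subst h2; rw [swap_apply_right]; exact hxy
    rw [swap_apply_of_ne_of_ne h1 h2]
  have hs01 := hsw x0 x1 (by simp [x0, x1]; omega)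
  have hmem : swap x0 x1 ∈ clo (2 * d - d) (G3 d) := by
    change _ ∈ galoisClosure (2 * d - d) (G3 d)
    rw [mem_galoisClosure_iff (by omega)]
    intro a
    by_cases hinj : ∃ x y : Fin (2 * d), x ≠ y ∧ (x.val < d ↔ y.val < d) ∧ a x = a y
    · obtain ⟨x, y, hxy, hb, ha⟩ := hinj
      refine ⟨swap x y * swap x0 x1, ?_, ?_⟩
      · rw [mem_G3]
        left
        refine ⟨fun z => ?_, ?_⟩
        · rw [Perm.mul_apply, hsw x y hb, hs01]
        · rw [Equiv.Perm.sign_mul, Equiv.Perm.sign_swap hxy, Equiv.Perm.sign_swap h01]; decide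
      · ext z
        simp only [Function.comp_apply, Perm.mul_apply]
        by_cases e1 : swap x0 x1 z = x
        · rw [e1, swap_apply_left, ha]
        by_cases e2 : swap x0 x1 z = y
        · rw [e2, swap_apply_right, ha]
        rw [swap_apply_of_ne_of_ne e1 e2]
    · push Not at hinj
      have hex : ∀ P : Fin (2 * d) → Prop, (∀ x y, P x → P y → (x.val < d ↔ y.val < d)) →
          (univ.filter P).card = d → ∀ c : Fin (2 * d - d), ∃ y, P y ∧ a y = c := by
        intro P hP hPc c
        have h1 : (univ.filter P).image a = univ := by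
          apply eq_univ_of_card
          rw [card_image_of_injOn, hPc, Fintype.card_fin]
          · omega
          · intro x hx y hy hxy
            by_contra hne
            have hx' : P x := by simpa using hx
            have hy' : P y := by simpa using hy
            exact hinj x y hne (hP x y hx' hy') hxy
        have h2 : c ∈ (univ.filter P).image a := by rw [h1]; exact mem_univ _
        rw [mem_image] at h2
        obtain ⟨y, hy, hyc⟩ := h2
        exact ⟨y, by simpa using hy, hyc⟩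
      have hopp : ∀ x : Fin (2 * d), ∃ y : Fin (2 * d), (y.val < d ↔ ¬ x.val < d) ∧ a y = a x := by
        intro x
        by_cases hx : x.val < d
        · obtain ⟨y, hy, hyc⟩ := hex (fun x => ¬ x.val < d) (fun x y h h' => by simp only [h, h'])
            (by convert (card_block d).2) (a x)
          exact ⟨y, by simp only [hy, hx, not_true], hyc⟩
        · obtain ⟨y, hy, hyc⟩ := hex (fun x => x.val < d) (fun x y h h' => by simp only [h, h'])
            (by convert (card_block d).1) (a x)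
          exact ⟨y, by simp only [hy, hx, not_false_iff], hyc⟩
      choose t ht1 ht2 using hopp
      have htt : ∀ x, t (t x) = x := by
        intro x
        by_contra hne
        refine hinj (t (t x)) x hne ?_ ?_
        · rw [ht1, ht1, not_not]
        · rw [ht2, ht2]
      let τ : Perm (Fin (2 * d)) := Function.Involutive.toPerm t htt
      have hτ : ∀ x, τ x = t x := fun x => rfl
      have hτf : ∀ x, τ x ≠ x := by
        intro x hx
        have := ht1 x
        rw [← hτ, hx] at this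
        tauto
      have hsign := sign_involution (by omega : 1 ≤ d) (τ := τ) htt hτf
      refine ⟨τ * swap x0 x1, ?_, ?_⟩
      · rw [mem_G3]
        right
        refine ⟨fun z => ?_, ?_⟩
        · rw [Perm.mul_apply, hτ, ht1, hs01]
        · rw [Equiv.Perm.sign_mul, hsign, Equiv.Perm.sign_swap h01, pow_succ]
      · ext z
        simp only [Function.comp_apply, Perm.mul_apply]
        rw [hτ, ht2]
  have := hcl hmem
  rw [mem_G3] at this
  rcases this with ⟨-, h2⟩ | ⟨h1, -⟩
  · rw [Equiv.Perm.sign_swap h01] at h2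
    exact absurd h2 (by decide)
  · have h3 := h1 x0
    rw [swap_apply_left] at h3
    simp only [x0, x1] at h3
    omega

lemma G3_no_cross {x y z : Fin (2 * d)} (hxy : x.val < d ↔ y.val < d) (hz : z.val < d ↔ ¬ y.val < d)
    {g : Perm (Fin (2 * d))} (hg : g ∈ G3 d) (h1 : g x = y) (h2 : g y = z) : False := by
  rw [mem_G3] at hg
  rcases hg with ⟨h, -⟩ | ⟨h, -⟩
  · have := h y
    rw [h2] at this
    tauto
  · have := h x
    rw [h1] at this
    tauto

lemma not_T_two_mul (hd : 2 ≤ d) : ¬ T (2 * d) d := by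
  classical
  intro hT
  obtain ⟨B, L, hB, hG⟩ := (hT (G3 d)).1 (G3_not_closed hd)
  have hBcard : d < B.card := by
    rw [card_compl, Fintype.card_fin] at hB
    omega
  -- x y in the same block, z in the other one
  have hsplit := card_filter_add_card_filter_not (s := B) (fun x => x.val < d)
  have hc0 : (B.filter (fun x => x.val < d)).card ≤ d := by
    refine (card_le_card (filter_subset_filter _ (subset_univ B))).trans (card_block d).1.le
  have hc1 : (B.filter (fun x => ¬ x.val < d)).card ≤ d := by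
    refine (card_le_card (filter_subset_filter _ (subset_univ B))).trans (card_block d).2.le
  obtain ⟨x, hx, y, hy, z, hz, hxy, hb, hbz⟩ : ∃ x ∈ B, ∃ y ∈ B, ∃ z ∈ B, x ≠ y ∧
      (x.val < d ↔ y.val < d) ∧ (z.val < d ↔ ¬ y.val < d) := by
    rcases Nat.lt_or_ge 1 (B.filter (fun x => x.val < d)).card with h | h
    · obtain ⟨x, hx, y, hy, hxy⟩ := one_lt_card.1 h
      obtain ⟨z, hz⟩ : (B.filter (fun x => ¬ x.val < d)).Nonempty := by rw [← card_pos]; omega
      rw [mem_filter] at hx hy hz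
      exact ⟨x, hx.1, y, hy.1, z, hz.1, hxy, by simp only [hx.2, hy.2], by simp only [hz.2, hy.2, not_true]⟩
    · have h' : 1 < (B.filter (fun x => ¬ x.val < d)).card := by omega
      obtain ⟨x, hx, y, hy, hxy⟩ := one_lt_card.1 h'
      obtain ⟨z, hz⟩ : (B.filter (fun x => x.val < d)).Nonempty := by rw [← card_pos]; omega
      rw [mem_filter] at hx hy hz
      exact ⟨x, hx.1, y, hy.1, z, hz.1, hxy, by simp only [hx.2, hy.2], by simp only [hz.2, hy.2, not_false_iff]⟩
  have hyz : y ≠ z := by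
    rintro rfl
    tauto
  have hxz : x ≠ z := by
    rintro rfl
    tauto
  let X : {x : Fin (2 * d) // x ∈ B} := ⟨x, hx⟩
  let Y : {x : Fin (2 * d) // x ∈ B} := ⟨y, hy⟩
  let Z : {x : Fin (2 * d) // x ∈ B} := ⟨z, hz⟩
  have hXY : X ≠ Y := fun h => hxy (congrArg Subtype.val h)
  have hYZ : Y ≠ Z := fun h => hyz (congrArg Subtype.val h)
  have hXZ : X ≠ Z := fun h => hxz (congrArg Subtype.val h)
  have hcon : ∀ l, φ B (tri X Y Z, l) ∉ G3 d := by
    intro l hl
    refine G3_no_cross hb hbz hl ?_ ?_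
    · rw [φ_in B _ _ hx]
      have : tri X Y Z X = Y := tri_fst hXY hXZ
      exact congrArg Subtype.val this
    · rw [φ_in B _ _ hy]
      have : tri X Y Z Y = Z := tri_snd hYZ hXZ
      exact congrArg Subtype.val this
  rcases hG with hG | ⟨-, hsurj, -⟩
  · apply hcon 1
    rw [hG, φ_mem_prodOn]
    refine ⟨?_, L.one_mem⟩
    rw [Equiv.Perm.mem_alternatingGroup]
    unfold tri
    rw [Equiv.Perm.sign_mul, Equiv.Perm.sign_swap hXY, Equiv.Perm.sign_swap hYZ]
    decide
  · obtain ⟨l, hl⟩ := hsurj (tri X Y Z)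
    exact hcon l hl

end lower

/-- **The threshold is `f(d) = 2 d + 1`.** For every `d ≥ 1`, the number `2 d + 1` is the least integer
`N ≥ d + 2` such that `T(n, d)` holds for every `n ≥ N`. -/
theorem result : ∀ d : ℕ, 1 ≤ d →
    IsLeast {N : ℕ | d + 2 ≤ N ∧ ∀ n : ℕ, N ≤ n → T n d} (2 * d + 1) := by
  intro d hd
  constructor
  · exact ⟨by omega, fun n hn => T_of_large hd (by omega)⟩
  · rintro N ⟨hN, hT⟩
    by_contra hlt
    push Not at hlt
    rcases Nat.lt_or_ge d 2 with h | h
    · omega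
    · exact not_T_two_mul h (hT (2 * d) (by omega))

end Pool.Agent.Results.MP_1328b3_al.Threshold
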